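import Pool.Agent.H.MP_2aa58c_an.A

namespace Pool.Agent.Results.MP_2aa58c_an.No
open scoped Manifold ContDiff
open Pool.Agent.H.MP_2aa58c_an

theorem result : ∃ (G : Type) (_ : Group G) (_ : TopologicalSpace G)
    (_ : ChartedSpace (ℝ × ℝ × ℝ) G), IsTopologicalGroup G ∧ PolishSpace G ∧ ConnectedSpace G ∧
    LieGroup (modelWithCornersSelf ℝ (ℝ × ℝ × ℝ)) ∞ G ∧ Group.IsNilpotent G ∧
    ∃ (Γ₁ Γ₂ : Subgroup G) (τ₁ τ₂ : G) (U₁ : Set (G ⧸ Γ₁)) (U₂ : Set (G ⧸ Γ₂)) (x₁ : G ⧸ Γ₁)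
      (x₂ : G ⧸ Γ₂),
      (DiscreteTopology Γ₁ ∧ CompactSpace (G ⧸ Γ₁) ∧
        (∀ x : G ⧸ Γ₁, Dense (Set.range fun n : ℤ => τ₁ ^ n • x)) ∧ IsOpen U₁ ∧
        ∀ g : G, (g • ·) '' closure U₁ = closure U₁ → ∀ x : G ⧸ Γ₁, g • x = x) ∧
      (DiscreteTopology Γ₂ ∧ CompactSpace (G ⧸ Γ₂) ∧
        (∀ x : G ⧸ Γ₂, Dense (Set.range fun n : ℤ => τ₂ ^ n • x)) ∧ IsOpen U₂ ∧
        ∀ g : G, (g • ·) '' closure U₂ = closure U₂ → ∀ x : G ⧸ Γ₂, g • x = x) ∧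
      {n : ℤ | τ₁ ^ n • x₁ ∈ U₁} = {n : ℤ | τ₂ ^ n • x₂ ∈ U₂} ∧
      ¬ ∃ φ : G ⧸ Γ₁ ≃ₜ G ⧸ Γ₂, (∀ x, φ (τ₁ • x) = τ₂ • φ x) ∧ φ x₁ = x₂ := by
  obtain ⟨α, β, h1, h2⟩ := kron
  refine ⟨Hs, inferInstance, inferInstance, inferInstance, inferInstance, inferInstance,
    inferInstance, lie, nil, Ga 2, Ga 1, mk α β 0, mk α β 0, QuotientGroup.mk '' W,
    QuotientGroup.mk '' W, (1 : Hs), (1 : Hs),
    ⟨inferInstance, tw2.cpt, tw2.mn h1 h2, QuotientGroup.isOpenMap_coe _ W_open, tw2.asy le21⟩,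
    ⟨inferInstance, tw1.cpt, tw1.mn h1 h2, QuotientGroup.isOpenMap_coe _ W_open, tw1.asy le_rfl⟩,
    Set.ext fun n => ?_, noiso (tw2.mn h1 h2 _)⟩
  exact (Set.ext_iff.1 (W_pre le21) (mk α β 0 ^ n * 1)).trans
    (Set.ext_iff.1 (W_pre le_rfl) (mk α β 0 ^ n * 1)).symm

end Pool.Agent.Results.MP_2aa58c_an.No
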